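import Pool.Agent.Helper43.LB.Defs

/-! Row I3 of the project MP_660525_LB: the calculus at the layered optimum. -/

namespace Pool.Agent.Helper43.LB

open Finset Filter Topology

namespace Gain

theorem hasDerivAt_Ff {y : ℝ} (hy : 0 < y) : HasDerivAt Ff (Real.log y) y := by
  have h := ((hasDerivAt_id y).mul (Real.hasDerivAt_log hy.ne')).sub (hasDerivAt_id y)
  simp only [id] at h
  convert! h using 1
  field_simp
  ring

theorem hasDerivAt_Gf {y : ℝ} (hy : 0 < y) : HasDerivAt Gf (Ff y) y := by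
  have h1 : HasDerivAt (fun y : ℝ => y ^ 2) (2 * y) y := by
    simpa using hasDerivAt_pow 2 y
  have h := ((h1.div_const 2).mul (Real.hasDerivAt_log hy.ne')).sub (h1.const_mul (3 / 4))
  convert! h using 1
  unfold Ff
  field_simp
  ring

theorem Ff_half {y : ℝ} (hy : 0 < y) : Ff (y / 2) = Ff y / 2 - y / 2 * Real.log 2 := by
  unfold Ff
  rw [Real.log_div hy.ne' (by norm_num)]
  ring

/-- smooth part of the difference -/
noncomputable def D1 (κ ω P R0 : ℝ) (e : ℝ) : ℝ :=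
  2 * (Vf (P + κ + e) (P + κ + ω) - Gf (2 * κ + e) / 2 - Gf (2 * (κ + ω - e)) / 2)
    - Sf (1 - e) (P + e) + 2 * e * R0 - 8 * e ^ 2 * κ / (P + κ)

theorem hasDerivAt_D1 {κ ω P : ℝ} (R0 : ℝ) (hκ : 0 < κ) (hω : 0 < ω) (hP : 0 < P) :
    HasDerivAt (D1 κ ω P R0)
      (2 * (-Ff ω + Ff (2 * (P + κ)) - Ff (P + κ + (P + κ + ω)) - Ff (2 * κ) / 2
          + Ff (2 * (κ + ω)))
        - (-Ff 1 + Ff (2 * P) - Ff (2 * P + 1) + Ff 2) + 2 * R0) 0 := by
  have hid : HasDerivAt (fun e : ℝ => e) 1 0 := hasDerivAt_id 0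
  have g1 : HasDerivAt (fun e : ℝ => Gf (P + κ + ω - (P + κ + e))) (Ff ω * (-1)) 0 := by
    have hh : HasDerivAt (fun e : ℝ => P + κ + ω - (P + κ + e)) (-1) 0 := by
      simpa using (hid.const_add (P + κ)).const_sub (P + κ + ω)
    refine HasDerivAt.comp (h₂ := Gf) (h := fun e : ℝ => P + κ + ω - (P + κ + e)) (0 : ℝ) ?_ hh
    have : P + κ + ω - (P + κ + 0) = ω := by ring
    simp only [this]
    exact hasDerivAt_Gf hω
  have g2 : HasDerivAt (fun e : ℝ => Gf (2 * (P + κ + e))) (Ff (2 * (P + κ)) * 2) 0 := by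
    have hh : HasDerivAt (fun e : ℝ => 2 * (P + κ + e)) 2 0 := by
      simpa using (hid.const_add (P + κ)).const_mul 2
    refine HasDerivAt.comp (h₂ := Gf) (h := fun e : ℝ => 2 * (P + κ + e)) (0 : ℝ) ?_ hh
    have : 2 * (P + κ + 0) = 2 * (P + κ) := by ring
    simp only [this]
    exact hasDerivAt_Gf (by positivity)
  have g3 : HasDerivAt (fun e : ℝ => Gf (P + κ + e + (P + κ + ω)))
      (Ff (P + κ + (P + κ + ω)) * 1) 0 := by
    have hh : HasDerivAt (fun e : ℝ => P + κ + e + (P + κ + ω)) 1 0 :=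
      (hid.const_add (P + κ)).add_const _
    refine HasDerivAt.comp (h₂ := Gf) (h := fun e : ℝ => P + κ + e + (P + κ + ω)) (0 : ℝ) ?_ hh
    have : P + κ + 0 + (P + κ + ω) = P + κ + (P + κ + ω) := by ring
    simp only [this]
    exact hasDerivAt_Gf (by positivity)
  have g4 : HasDerivAt (fun e : ℝ => Gf (2 * κ + e)) (Ff (2 * κ) * 1) 0 := by
    have hh : HasDerivAt (fun e : ℝ => 2 * κ + e) 1 0 := hid.const_add _
    refine HasDerivAt.comp (h₂ := Gf) (h := fun e : ℝ => 2 * κ + e) (0 : ℝ) ?_ hh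
    simp only [add_zero]
    exact hasDerivAt_Gf (by positivity)
  have g5 : HasDerivAt (fun e : ℝ => Gf (2 * (κ + ω - e))) (Ff (2 * (κ + ω)) * (-2)) 0 := by
    have hh : HasDerivAt (fun e : ℝ => 2 * (κ + ω - e)) (-2) 0 := by
      simpa using (hid.const_sub (κ + ω)).const_mul 2
    refine HasDerivAt.comp (h₂ := Gf) (h := fun e : ℝ => 2 * (κ + ω - e)) (0 : ℝ) ?_ hh
    simp only [sub_zero]
    exact hasDerivAt_Gf (by positivity)
  have g6 : HasDerivAt (fun e : ℝ => Gf (1 - e)) (Ff 1 * (-1)) 0 := by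
    have hh : HasDerivAt (fun e : ℝ => 1 - e) (-1) 0 := by simpa using hid.const_sub 1
    refine HasDerivAt.comp (h₂ := Gf) (h := fun e : ℝ => 1 - e) (0 : ℝ) ?_ hh
    simp only [sub_zero]
    exact hasDerivAt_Gf one_pos
  have g7 : HasDerivAt (fun e : ℝ => Gf (2 * (P + e) + 2 * (1 - e)))
      (Ff (2 * P + 2) * 0) 0 := by
    have hh : HasDerivAt (fun e : ℝ => 2 * (P + e) + 2 * (1 - e)) 0 0 := by
      have : (fun e : ℝ => 2 * (P + e) + 2 * (1 - e)) = fun _ => 2 * P + 2 := by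
        funext e
        ring
      rw [this]
      exact hasDerivAt_const _ _
    refine HasDerivAt.comp (h₂ := Gf) (h := fun e : ℝ => 2 * (P + e) + 2 * (1 - e)) (0 : ℝ) ?_ hh
    have : 2 * (P + 0) + 2 * (1 - 0) = 2 * P + 2 := by ring
    simp only [this]
    exact hasDerivAt_Gf (by positivity)
  have g8 : HasDerivAt (fun e : ℝ => Gf (2 * (P + e))) (Ff (2 * P) * 2) 0 := by
    have hh : HasDerivAt (fun e : ℝ => 2 * (P + e)) 2 0 := by
      simpa using (hid.const_add P).const_mul 2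
    refine HasDerivAt.comp (h₂ := Gf) (h := fun e : ℝ => 2 * (P + e)) (0 : ℝ) ?_ hh
    simp only [add_zero]
    exact hasDerivAt_Gf (by positivity)
  have g9 : HasDerivAt (fun e : ℝ => Gf (2 * (P + e) + (1 - e))) (Ff (2 * P + 1) * 1) 0 := by
    have hh : HasDerivAt (fun e : ℝ => 2 * (P + e) + (1 - e)) 1 0 := by
      have h := ((hid.const_add P).const_mul 2).add (hid.const_sub 1)
      convert! h using 1
      norm_num
    refine HasDerivAt.comp (h₂ := Gf) (h := fun e : ℝ => 2 * (P + e) + (1 - e)) (0 : ℝ) ?_ hh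
    have : 2 * (P + 0) + (1 - 0) = 2 * P + 1 := by ring
    simp only [this]
    exact hasDerivAt_Gf (by positivity)
  have g10 : HasDerivAt (fun e : ℝ => Gf (2 * (1 - e))) (Ff 2 * (-2)) 0 := by
    have hh : HasDerivAt (fun e : ℝ => 2 * (1 - e)) (-2) 0 := by
      simpa using (hid.const_sub 1).const_mul 2
    refine HasDerivAt.comp (h₂ := Gf) (h := fun e : ℝ => 2 * (1 - e)) (0 : ℝ) ?_ hh
    have : (2 : ℝ) * (1 - 0) = 2 := by ring
    simp only [this]
    exact hasDerivAt_Gf (by norm_num)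
  have g11 : HasDerivAt (fun e : ℝ => 2 * e * R0) (2 * R0) 0 := by
    simpa using (hid.const_mul 2).mul_const R0
  have g12 : HasDerivAt (fun e : ℝ => 8 * e ^ 2 * κ / (P + κ)) 0 0 := by
    have h1 : HasDerivAt (fun y : ℝ => y ^ 2) 0 0 := by simpa using hasDerivAt_pow 2 (0 : ℝ)
    simpa using (((h1.const_mul 8).mul_const κ).div_const (P + κ))
  have gV : HasDerivAt (fun e : ℝ => Vf (P + κ + e) (P + κ + ω))
      (Ff ω * (-1) + 0 + Ff (2 * (P + κ)) * 2 / 2 - Ff (P + κ + (P + κ + ω)) * 1) 0 := by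
    unfold Vf
    exact ((g1.add (hasDerivAt_const _ _)).add (g2.div_const 2)).sub g3
  have gS : HasDerivAt (fun e : ℝ => Sf (1 - e) (P + e))
      (Ff 1 * (-1) + Ff (2 * P + 2) * 0 / 2 + Ff (2 * P) * 2 / 2 - Ff (2 * P + 1) * 1
        - Ff 2 * (-2) / 2) 0 := by
    unfold Sf
    exact (((g6.add (g7.div_const 2)).add (g8.div_const 2)).sub g9).sub (g10.div_const 2)
  have h := (((((gV.sub (g4.div_const 2)).sub (g5.div_const 2)).const_mul 2).sub gS).add g11).sub
    g12
  convert! h using 1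
  ring

/-- a function with positive one-sided derivative is positive somewhere -/
theorem exists_pos {T q : ℝ → ℝ} {t q0 δ : ℝ} (hT : HasDerivAt T t 0)
    (hq : Tendsto q (𝓝[>] 0) (𝓝 q0)) (h : 0 < t + q0) (hδ : 0 < δ) :
    ∃ x, 0 < x ∧ x < δ ∧ 0 < T x - T 0 + x * q x := by
  have h1 : Tendsto (slope T 0) (𝓝[>] 0) (𝓝 t) :=
    (hasDerivAt_iff_tendsto_slope.mp hT).mono_left (nhdsWithin_mono _ fun x hx => ne_of_gt hx)
  have h2 := (h1.add hq).eventually (lt_mem_nhds h)
  have h3 : ∀ᶠ x : ℝ in 𝓝[>] 0, x < δ := (gt_mem_nhds hδ).filter_mono nhdsWithin_le_nhds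
  have h4 : ∀ᶠ x : ℝ in 𝓝[>] 0, 0 < x := eventually_mem_nhdsWithin
  obtain ⟨x, hx, hx1, hx2⟩ := (h2.and (h3.and h4)).exists
  refine ⟨x, hx2, hx1, ?_⟩
  rw [slope_def_field, sub_zero] at hx
  have h5 := mul_pos hx2 hx
  rw [mul_add, mul_div_cancel₀ _ hx2.ne'] at h5
  exact h5

/-- the coefficient `R0` -/
noncomputable def R0 (κ ω P : ℝ) : ℝ :=
  3 / 4 * B1 1 ω P (P + κ) (P + κ + ω) - 1 / 4 * B3 1 ω P (P + κ) (P + κ + ω)
    + (1 - cB * ω / (2 * (P + κ + ω))) * (B2 1 ω P (P + κ) (P + κ + ω) / 4)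
    + ω / (2 * (P + κ + ω)) * (cA * κ + cB * κ * Real.log (P + κ + ω) - cI * (P + κ + ω))

theorem Dd_eq {κ ω P e : ℝ} (hκω : 2 * κ + ω = 1) (hκ : 0 < κ) (hP : 0 < P) (he : 0 < e) :
    Dd κ ω e P = Sf 1 P + (D1 κ ω P (R0 κ ω P) e - D1 κ ω P (R0 κ ω P) 0
      + e * (11 / 2 * (e * Real.log e) - 3 / 4 * e - 5 * e * Real.log (e + 2 * (P + κ)))) := by
  have h1 : Real.log (1 + 2 * (P + κ) / e) = Real.log (e + 2 * (P + κ)) - Real.log e := by
    rw [← Real.log_div (by positivity) he.ne']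
    congr 1
    field_simp
  have hG : Gf e = e ^ 2 / 2 * Real.log e - 3 / 4 * e ^ 2 := rfl
  unfold Dd D1 R0
  rw [hκω, h1]
  simp only [add_zero, sub_zero, mul_zero, zero_mul, zero_pow two_ne_zero, zero_div, hG]
  ring

/-- the bracket -/
noncomputable def Qf (P ω : ℝ) : ℝ :=
  (cA * ((1 - ω) / 2) + cB * ((1 - ω) / 2) * Real.log (P + (1 - ω) / 2 + ω)
    - cI * (P + (1 - ω) / 2 + ω)
    - cB * (B2 1 ω P (P + (1 - ω) / 2) (P + (1 - ω) / 2 + ω) / 4)) / (P + (1 - ω) / 2 + ω)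

/-- the smooth part of the derivative -/
noncomputable def Tf' (P ω : ℝ) : ℝ :=
  Ff (2 * P + 1 - ω) + (Ff (1 + ω) - Ff (1 - ω)) / 2 + ω * Real.log 2

theorem deriv_eq {ω P : ℝ} (hω : 0 < ω) (hω1 : ω < 1) (hP : 0 < P) :
    2 * (-Ff ω + Ff (2 * (P + (1 - ω) / 2))
          - Ff (P + (1 - ω) / 2 + (P + (1 - ω) / 2 + ω)) - Ff (2 * ((1 - ω) / 2)) / 2
          + Ff (2 * ((1 - ω) / 2 + ω)))
        - (-Ff 1 + Ff (2 * P) - Ff (2 * P + 1) + Ff 2) + 2 * R0 ((1 - ω) / 2) ω P
      = Tf' P ω - Tf' P 0 + ω * Qf P ω := by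
  have hb : 0 < P + (1 - ω) / 2 + ω := by linarith
  have e1 : 2 * (P + (1 - ω) / 2) = 2 * P + 1 - ω := by ring
  have e2 : P + (1 - ω) / 2 + (P + (1 - ω) / 2 + ω) = 2 * P + 1 := by ring
  have e3 : 2 * ((1 - ω) / 2) = 1 - ω := by ring
  have e4 : 2 * ((1 - ω) / 2 + ω) = 1 + ω := by ring
  have e5 : 2 * (P + (1 - ω) / 2 + ω) = 2 * P + 1 + ω := by ring
  have ha : Ff (P + (1 - ω) / 2)
      = Ff (2 * P + 1 - ω) / 2 - (2 * P + 1 - ω) / 2 * Real.log 2 := by
    rw [← Ff_half (by linarith)]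
    congr 1
    ring
  have hbb : Ff (P + (1 - ω) / 2 + ω)
      = Ff (2 * P + 1 + ω) / 2 - (2 * P + 1 + ω) / 2 * Real.log 2 := by
    rw [← Ff_half (by linarith)]
    congr 1
    ring
  have hR : 2 * R0 ((1 - ω) / 2) ω P
      = 3 / 2 * B1 1 ω P (P + (1 - ω) / 2) (P + (1 - ω) / 2 + ω)
        - 1 / 2 * B3 1 ω P (P + (1 - ω) / 2) (P + (1 - ω) / 2 + ω)
        + 1 / 2 * B2 1 ω P (P + (1 - ω) / 2) (P + (1 - ω) / 2 + ω) + ω * Qf P ω := by
    unfold R0 Qf
    field_simp
    ring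
  rw [hR]
  unfold B1 B2 B3 Tf'
  simp only [mul_one, sub_zero, add_zero, zero_mul, sub_self, zero_div]
  rw [e1, e2, e3, e4, e5, ha, hbb]
  ring

theorem hasDerivAt_Tf' {P : ℝ} (hP : 0 < P) :
    HasDerivAt (Tf' P) (-Real.log (2 * P + 1) + Real.log 2) 0 := by
  have hid : HasDerivAt (fun e : ℝ => e) 1 0 := hasDerivAt_id 0
  have g1 : HasDerivAt (fun e : ℝ => Ff (2 * P + 1 - e)) (Real.log (2 * P + 1) * (-1)) 0 := by
    have hh : HasDerivAt (fun e : ℝ => 2 * P + 1 - e) (-1) 0 := by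
      simpa using hid.const_sub (2 * P + 1)
    refine HasDerivAt.comp (h₂ := Ff) (h := fun e : ℝ => 2 * P + 1 - e) (0 : ℝ) ?_ hh
    simp only [sub_zero]
    exact hasDerivAt_Ff (by positivity)
  have g2 : HasDerivAt (fun e : ℝ => Ff (1 + e)) (Real.log 1 * 1) 0 := by
    have hh : HasDerivAt (fun e : ℝ => 1 + e) 1 0 := hid.const_add 1
    refine HasDerivAt.comp (h₂ := Ff) (h := fun e : ℝ => 1 + e) (0 : ℝ) ?_ hh
    simp only [add_zero]
    exact hasDerivAt_Ff one_pos
  have g3 : HasDerivAt (fun e : ℝ => Ff (1 - e)) (Real.log 1 * (-1)) 0 := by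
    have hh : HasDerivAt (fun e : ℝ => 1 - e) (-1) 0 := by simpa using hid.const_sub 1
    refine HasDerivAt.comp (h₂ := Ff) (h := fun e : ℝ => 1 - e) (0 : ℝ) ?_ hh
    simp only [sub_zero]
    exact hasDerivAt_Ff one_pos
  have h := (g1.add ((g2.sub g3).div_const 2)).add (hid.mul_const (Real.log 2))
  convert! h using 1
  rw [Real.log_one]
  ring

theorem continuousAt_Ff {y : ℝ} (hy : 0 < y) : ContinuousAt Ff y := (hasDerivAt_Ff hy).continuousAt

theorem tendsto_Qf {P : ℝ} (hP : 0 < P) : Tendsto (Qf P) (𝓝[>] 0) (𝓝 (Qf P 0)) := by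
  have hc : ContinuousAt (Qf P) 0 := by
    have hb : ContinuousAt (fun ω : ℝ => P + (1 - ω) / 2 + ω) 0 := by fun_prop
    have ha : ContinuousAt (fun ω : ℝ => P + (1 - ω) / 2) 0 := by fun_prop
    have hb0 : P + (1 - (0 : ℝ)) / 2 + 0 ≠ 0 := by positivity
    have hlog : ContinuousAt (fun ω : ℝ => Real.log (P + (1 - ω) / 2 + ω)) 0 := hb.log hb0
    have hF1 : ContinuousAt (fun ω : ℝ => Ff (1 - ω)) 0 := by
      refine ContinuousAt.comp (g := Ff) (f := fun ω : ℝ => 1 - ω) ?_ (by fun_prop)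
      simp only [sub_zero]
      exact continuousAt_Ff one_pos
    have hF2 : ContinuousAt (fun ω : ℝ => Ff (1 + ω)) 0 := by
      refine ContinuousAt.comp (g := Ff) (f := fun ω : ℝ => 1 + ω) ?_ (by fun_prop)
      simp only [add_zero]
      exact continuousAt_Ff one_pos
    have hFb : ContinuousAt (fun ω : ℝ => Ff (P + (1 - ω) / 2 + ω)) 0 := by
      refine ContinuousAt.comp (g := Ff) (f := fun ω : ℝ => P + (1 - ω) / 2 + ω) ?_ hb
      exact continuousAt_Ff (by positivity)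
    have hFa : ContinuousAt (fun ω : ℝ => Ff (P + (1 - ω) / 2)) 0 := by
      refine ContinuousAt.comp (g := Ff) (f := fun ω : ℝ => P + (1 - ω) / 2) ?_ ha
      exact continuousAt_Ff (by simp only [sub_zero]; positivity)
    unfold Qf B2
    refine ContinuousAt.div ?_ hb hb0
    refine ContinuousAt.sub (ContinuousAt.sub (ContinuousAt.add (by fun_prop) ?_) ?_) ?_
    · exact ContinuousAt.mul (by fun_prop) hlog
    · exact continuousAt_const.mul hb
    · refine continuousAt_const.mul (ContinuousAt.div_const ?_ 4)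
      exact ((((continuousAt_const.add hF1).add hF2).sub (continuousAt_const.mul hFb)).add
        (continuousAt_const.mul hFa))
  exact hc.tendsto.mono_left nhdsWithin_le_nhds

/-! ### Numerics -/

theorem lg_a : (237006 / 1000000 : ℝ) ≤ Real.log (25349 / 20000) ∧
    Real.log (25349 / 20000) ≤ 237009 / 1000000 := by
  have h1 := Real.log_div_le_sum_range_add (x := 5349 / 45349) (by norm_num) (by norm_num) 5
  have h2 := Real.sum_range_le_log_div (x := 5349 / 45349) (by norm_num) (by norm_num) 5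
  have e : (1 + 5349 / 45349) / (1 - 5349 / 45349) = (25349 / 20000 : ℝ) := by norm_num
  rw [e] at h1 h2
  simp only [Finset.sum_range_succ, Finset.sum_range_zero] at h1 h2
  norm_num at h1 h2
  constructor <;> norm_num <;> linarith

theorem lg_b : (231110 / 1000000 : ℝ) ≤ Real.log (126 / 100) ∧
    Real.log (126 / 100) ≤ 231113 / 1000000 := by
  have h1 := Real.log_div_le_sum_range_add (x := 13 / 113) (by norm_num) (by norm_num) 4
  have h2 := Real.sum_range_le_log_div (x := 13 / 113) (by norm_num) (by norm_num) 4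
  have e : (1 + 13 / 113) / (1 - 13 / 113) = (126 / 100 : ℝ) := by norm_num
  rw [e] at h1 h2
  simp only [Finset.sum_range_succ, Finset.sum_range_zero] at h1 h2
  norm_num at h1 h2
  constructor <;> norm_num <;> linarith

theorem lg_c : (839749 / 1000000 : ℝ) ≤ Real.log (352 / 152) ∧
    Real.log (352 / 152) ≤ 839752 / 1000000 := by
  have h1 := Real.log_div_le_sum_range_add (x := 25 / 63) (by norm_num) (by norm_num) 10
  have h2 := Real.sum_range_le_log_div (x := 25 / 63) (by norm_num) (by norm_num) 10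
  have e : (1 + 25 / 63) / (1 - 25 / 63) = (352 / 152 : ℝ) := by norm_num
  rw [e] at h1 h2
  simp only [Finset.sum_range_succ, Finset.sum_range_zero] at h1 h2
  norm_num at h1 h2
  constructor <;> norm_num <;> linarith

theorem lg_d : (569536 / 1000000 : ℝ) ≤ Real.log (35349 / 20000) ∧
    Real.log (35349 / 20000) ≤ 569539 / 1000000 := by
  have h1 := Real.log_div_le_sum_range_add (x := 15349 / 55349) (by norm_num) (by norm_num) 8
  have h2 := Real.sum_range_le_log_div (x := 15349 / 55349) (by norm_num) (by norm_num) 8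
  have e : (1 + 15349 / 55349) / (1 - 15349 / 55349) = (35349 / 20000 : ℝ) := by norm_num
  rw [e] at h1 h2
  simp only [Finset.sum_range_succ, Finset.sum_range_zero] at h1 h2
  norm_num at h1 h2
  constructor <;> norm_num <;> linarith


theorem key {P : ℝ} (h1 : 0.76 < P) (h2 : P ≤ 0.76745) :
    0 < -Real.log (2 * P + 1) + Real.log 2 + Qf P 0 := by
  norm_num at h1 h2
  have hP : 0 < P := by linarith
  set s : ℝ := 2 * P + 1 with hs
  have hs1 : 252 / 100 < s := by linarith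
  have hs2 : s ≤ 25349 / 10000 := by linarith
  have hQ : Qf P 0 = (cA + cB * Real.log (s / 2) - cI * s
      - cB / 2 * ((s + 1) * Real.log (s + 1) - (s - 1) * Real.log (s - 1) - 2
        - 4 * Real.log 2)) / s := by
    unfold Qf B2 Ff
    have e1 : P + (1 - 0) / 2 + 0 = s / 2 := by rw [hs]; ring
    have e2 : P + (1 - 0) / 2 = s / 2 := by rw [hs]; ring
    have e3 : 2 * P + 2 * 1 = s + 1 := by rw [hs]; ring
    have e4 : 2 * P = s - 1 := by rw [hs]; ring
    rw [e1, e2, e3, e4]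
    simp only [sub_zero, add_zero, mul_one, Real.log_one, one_mul]
    rw [div_div_eq_mul_div]
    congr 1
    ring
  have hl2a := Real.log_two_gt_d9
  have hl2b := Real.log_two_lt_d9
  norm_num at hl2a hl2b
  -- upper bound of the logarithm
  have hA : Real.log s ≤ Real.log 2 + Real.log (25349 / 20000) := by
    rw [← Real.log_mul (by norm_num) (by norm_num)]
    refine Real.log_le_log (by linarith) ?_
    linarith
  have hB : Real.log (126 / 100) ≤ Real.log (s / 2) := Real.log_le_log (by norm_num) (by linarith)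
  have hC : (s + 1) * Real.log (s + 1) - (s - 1) * Real.log (s - 1)
      ≤ 15349 / 10000 * Real.log (352 / 152) + 2 * (Real.log 2 + Real.log (35349 / 20000)) := by
    have h3 : Real.log (s + 1) ≤ Real.log 2 + Real.log (35349 / 20000) := by
      rw [← Real.log_mul (by norm_num) (by norm_num)]
      refine Real.log_le_log (by linarith) ?_
      linarith
    have h4 : Real.log (s + 1) - Real.log (s - 1) ≤ Real.log (352 / 152) := by
      rw [← Real.log_div (by linarith) (by linarith)]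
      refine Real.log_le_log (div_pos (by linarith) (by linarith)) ?_
      rw [div_le_iff₀ (by linarith)]
      linarith
    have h5 : 0 ≤ Real.log (352 / 152) := Real.log_nonneg (by norm_num)
    have h6 : (s - 1) * (Real.log (s + 1) - Real.log (s - 1)) ≤ 15349 / 10000 * Real.log (352 / 152) :=
      mul_le_mul (by linarith) h4 (by
        rw [sub_nonneg]
        exact Real.log_le_log (by linarith) (by linarith)) (by norm_num)
    nlinarith
  have ha := lg_a
  have hb := lg_b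
  have hc := lg_c
  have hd := lg_d
  have hN : 644 / 1000 ≤ cA + cB * Real.log (s / 2)
      - cB / 2 * ((s + 1) * Real.log (s + 1) - (s - 1) * Real.log (s - 1) - 2
        - 4 * Real.log 2) := by
    unfold cA cB
    linarith [ha.1, ha.2, hb.1, hb.2, hc.1, hc.2, hd.1, hd.2]
  have hdiv : 644 / 1000 * (10000 / 25349) - cI ≤ Qf P 0 := by
    rw [hQ]
    have hs0 : 0 < s := by linarith
    rw [le_div_iff₀ hs0]
    have : 644 / 1000 * (10000 / 25349) * s ≤ 644 / 1000 := by
      have : s * (10000 / 25349) ≤ 1 := by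
        have := mul_le_mul_of_nonneg_right hs2 (by norm_num : (0:ℝ) ≤ 10000 / 25349)
        norm_num at this
        linarith
      linarith
    linarith
  have hcI : cI = 1466 / 100000 := rfl
  rw [hcI] at hdiv
  norm_num at hdiv
  linarith [ha.2]

end Gain

theorem exists_gain (P : ℝ) (h1 : 0.76 < P) (h2 : P ≤ 0.76745) :
    ∃ κ ω ε : ℝ, 0 < κ ∧ 0 < ε ∧ ε < ω ∧ 2 * κ + ω = 1 ∧ Sf 1 P < Dd κ ω ε P := by
  have hP : 0 < P := lt_trans (by norm_num) h1
  obtain ⟨ω, hω, hω1, hR⟩ := Gain.exists_pos (δ := 1) (Gain.hasDerivAt_Tf' hP)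
    (Gain.tendsto_Qf hP) (Gain.key h1 h2) one_pos
  have hκ : 0 < (1 - ω) / 2 := by linarith
  have hκω : 2 * ((1 - ω) / 2) + ω = 1 := by ring
  rw [← Gain.deriv_eq hω hω1 hP] at hR
  have hD := Gain.hasDerivAt_D1 (Gain.R0 ((1 - ω) / 2) ω P) hκ hω hP
  have hg : Tendsto (fun e : ℝ => 11 / 2 * (e * Real.log e) - 3 / 4 * e
      - 5 * e * Real.log (e + 2 * (P + (1 - ω) / 2))) (𝓝[>] 0) (𝓝 0) := by
    have hc : ContinuousAt (fun e : ℝ => 11 / 2 * (e * Real.log e) - 3 / 4 * e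
        - 5 * e * Real.log (e + 2 * (P + (1 - ω) / 2))) 0 := by
      refine ContinuousAt.sub (ContinuousAt.sub ?_ (by fun_prop)) ?_
      · exact continuousAt_const.mul Real.continuous_mul_log.continuousAt
      · refine ContinuousAt.mul (by fun_prop) (ContinuousAt.log (by fun_prop) ?_)
        positivity
    have := hc.tendsto.mono_left (nhdsWithin_le_nhds (s := Set.Ioi 0))
    simpa using this
  obtain ⟨ε, hε, hε1, hfin⟩ := Gain.exists_pos hD hg (by rw [add_zero]; exact hR) hω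
  refine ⟨(1 - ω) / 2, ω, ε, hκ, hε, hε1, hκω, ?_⟩
  rw [Gain.Dd_eq hκω hκ hP hε]
  linarith

end Pool.Agent.Helper43.LB
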