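import Pool.Agent.Helper43.LB.Defs

/-! Row I2 of the project MP_660525_LB: the one-body bound. -/

namespace Pool.Agent.Helper43.LB

open Finset

namespace OneBody

/-- the one-body function -/
noncomputable def vf (y : ℝ) : ℝ := cA - cB * Real.log y - 1 / (1 + y)

/-- its antiderivative, corrected by a small linear term -/
noncomputable def Vv (y : ℝ) : ℝ :=
  (cA + 16 / 1000000) * y - cB * (y * Real.log y - y) - Real.log (1 + y)

theorem hasDerivAt_Vv {y : ℝ} (hy : 0 < y) : HasDerivAt Vv (vf y + 16 / 1000000) y := by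
  have h1 : HasDerivAt (fun y : ℝ => y * Real.log y) (Real.log y + 1) y := by
    have := (hasDerivAt_id y).mul (Real.hasDerivAt_log hy.ne')
    simp only [id] at this
    convert! this using 1
    field_simp
  have h2 : HasDerivAt (fun y : ℝ => Real.log (1 + y)) (1 / (1 + y)) y :=
    ((hasDerivAt_id y).const_add 1).log (by positivity)
  have h3 := ((hasDerivAt_id y).const_mul (cA + 16 / 1000000)).sub
    ((h1.sub (hasDerivAt_id y)).const_mul cB) |>.sub h2
  convert! h3 using 1
  unfold vf
  ring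

theorem continuousOn_Vv : ContinuousOn Vv (Set.Ici 0) := by
  unfold Vv
  refine ContinuousOn.sub (Continuous.continuousOn ?_) ?_
  · exact (continuous_const.mul continuous_id).sub
      (continuous_const.mul (Real.continuous_mul_log.sub continuous_id))
  · refine ContinuousOn.log (continuous_const.add continuous_id).continuousOn fun x hx => ?_
    have : (0 : ℝ) ≤ x := hx
    show 1 + id x ≠ 0
    simp only [id]
    positivity

theorem hasDerivAt_vf {y : ℝ} (hy : 0 < y) :
    HasDerivAt vf (-cB / y + 1 / (1 + y) ^ 2) y := by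
  have h1 : HasDerivAt (fun y : ℝ => 1 / (1 + y)) (-1 / (1 + y) ^ 2) y := by
    have := ((hasDerivAt_id y).const_add 1).inv (by simp only [id]; positivity)
    simp only [id] at this
    convert! this using 1
    funext z
    simp [one_div]
  have h3 := (((Real.hasDerivAt_log hy.ne').const_mul cB).const_sub cA).sub h1
  convert! h3 using 1
  field_simp
  ring

theorem vf_anti {x y : ℝ} (hx : 0 < x) (hxy : x ≤ y) (hy : y ≤ 1 / 5) : vf y ≤ vf x := by
  have h : AntitoneOn vf (Set.Icc x (1 / 5)) := by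
    refine antitoneOn_of_hasDerivWithinAt_nonpos (convex_Icc _ _) (f' := fun y => -cB / y + 1 / (1 + y) ^ 2)
      (fun z hz => (hasDerivAt_vf (lt_of_lt_of_le hx hz.1)).continuousAt.continuousWithinAt)
      (fun z hz => ?_) (fun z hz => ?_)
    · rw [interior_Icc] at hz ⊢
      exact (hasDerivAt_vf (hx.trans hz.1)).hasDerivWithinAt
    · rw [interior_Icc] at hz
      have hz0 : 0 < z := hx.trans hz.1
      have hz1 : z < 1 / 5 := hz.2
      have : 1 / (1 + z) ^ 2 ≤ cB / z := by
        rw [div_le_div_iff₀ (by positivity) hz0]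
        unfold cB
        nlinarith
      have h2 : -cB / z = -(cB / z) := by ring
      linarith
  exact h ⟨le_rfl, hxy.trans hy⟩ ⟨hxy, hy⟩ hxy

theorem vf_mono {x y : ℝ} (hx : 21 / 100 ≤ x) (hxy : x ≤ y) (hy : y ≤ 1) : vf x ≤ vf y := by
  have h : MonotoneOn vf (Set.Icc (21 / 100) 1) := by
    refine monotoneOn_of_hasDerivWithinAt_nonneg (convex_Icc _ _) (f' := fun y => -cB / y + 1 / (1 + y) ^ 2)
      (fun z hz => (hasDerivAt_vf (lt_of_lt_of_le (by norm_num) hz.1)).continuousAt.continuousWithinAt)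
      (fun z hz => ?_) (fun z hz => ?_)
    · rw [interior_Icc] at hz ⊢
      exact (hasDerivAt_vf (lt_trans (by norm_num) hz.1)).hasDerivWithinAt
    · rw [interior_Icc] at hz
      have hz0 : 0 < z := lt_trans (by norm_num) hz.1
      have hz1 : z < 1 := hz.2
      have hz2 : 21 / 100 < z := hz.1
      have : cB / z ≤ 1 / (1 + z) ^ 2 := by
        rw [div_le_div_iff₀ hz0 (by positivity)]
        unfold cB
        nlinarith
      have h2 : -cB / z = -(cB / z) := by ring
      linarith
  exact h ⟨hx, hxy.trans hy⟩ ⟨hx.trans hxy, hy⟩ hxy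

/-! ### Numerics -/

theorem log_a : (92115287 / 1000000000 : ℝ) ≤ Real.log (125 / 114) ∧
    Real.log (125 / 114) ≤ 92115290 / 1000000000 := by
  have h1 := Real.log_div_le_sum_range_add (x := 11 / 239) (by norm_num) (by norm_num) 4
  have h2 := Real.sum_range_le_log_div (x := 11 / 239) (by norm_num) (by norm_num) 4
  have e : (1 + 11 / 239) / (1 - 11 / 239) = (125 / 114 : ℝ) := by norm_num
  rw [e] at h1 h2
  simp only [Finset.sum_range_succ, Finset.sum_range_zero] at h1 h2
  norm_num at h1 h2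
  constructor <;> norm_num <;> linarith

theorem log_b : (423272725 / 1000000000 : ℝ) ≤ Real.log (10000 / 6549) ∧
    Real.log (10000 / 6549) ≤ 423272728 / 1000000000 := by
  have h1 := Real.log_div_le_sum_range_add (x := 3451 / 16549) (by norm_num) (by norm_num) 7
  have h2 := Real.sum_range_le_log_div (x := 3451 / 16549) (by norm_num) (by norm_num) 7
  have e : (1 + 3451 / 16549) / (1 - 3451 / 16549) = (10000 / 6549 : ℝ) := by norm_num
  rw [e] at h1 h2
  simp only [Finset.sum_range_succ, Finset.sum_range_zero] at h1 h2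
  norm_num at h1 h2
  constructor <;> norm_num <;> linarith

theorem log_c : (55434705 / 1000000000 : ℝ) ≤ Real.log (1057 / 1000) ∧
    Real.log (1057 / 1000) ≤ 55434708 / 1000000000 := by
  have h1 := Real.log_div_le_sum_range_add (x := 57 / 2057) (by norm_num) (by norm_num) 4
  have h2 := Real.sum_range_le_log_div (x := 57 / 2057) (by norm_num) (by norm_num) 4
  have e : (1 + 57 / 2057) / (1 - 57 / 2057) = (1057 / 1000 : ℝ) := by norm_num
  rw [e] at h1 h2
  simp only [Finset.sum_range_succ, Finset.sum_range_zero] at h1 h2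
  norm_num at h1 h2
  constructor <;> norm_num <;> linarith

theorem log_d : (503740583 / 1000000000 : ℝ) ≤ Real.log (16549 / 10000) ∧
    Real.log (16549 / 10000) ≤ 503740586 / 1000000000 := by
  have h1 := Real.log_div_le_sum_range_add (x := 6549 / 26549) (by norm_num) (by norm_num) 8
  have h2 := Real.sum_range_le_log_div (x := 6549 / 26549) (by norm_num) (by norm_num) 8
  have e : (1 + 6549 / 26549) / (1 - 6549 / 26549) = (16549 / 10000 : ℝ) := by norm_num
  rw [e] at h1 h2
  simp only [Finset.sum_range_succ, Finset.sum_range_zero] at h1 h2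
  norm_num at h1 h2
  constructor <;> norm_num <;> linarith

theorem log_y0 : (-2864704014 / 1000000000 : ℝ) ≤ Real.log (57 / 1000) ∧
    Real.log (57 / 1000) ≤ -2864704008 / 1000000000 := by
  have e : Real.log (57 / 1000) = -Real.log (125 / 114) - 4 * Real.log 2 := by
    have h1 : (57 / 1000 : ℝ) = (125 / 114)⁻¹ / 2 ^ 4 := by norm_num
    rw [h1, Real.log_div (by norm_num) (by norm_num), Real.log_inv, Real.log_pow]
    norm_num
  have h1 := log_a
  have h2 := Real.log_two_gt_d9
  have h3 := Real.log_two_lt_d9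
  norm_num at h2 h3
  rw [e]
  constructor <;> linarith [h1.1, h1.2]

theorem log_y1 : Real.log (6549 / 10000) = -Real.log (10000 / 6549) := by
  rw [← Real.log_inv]
  norm_num

theorem vf_y0 : -(16 / 1000000) ≤ vf (57 / 1000) ∧ vf (57 / 1000) ≤ 0 := by
  have h := log_y0
  unfold vf cA cB
  norm_num
  constructor <;> linarith [h.1, h.2]

theorem vf_y1 : -(16 / 1000000) ≤ vf (6549 / 10000) ∧ vf (6549 / 10000) ≤ 0 := by
  have h := log_b
  unfold vf cA cB
  rw [log_y1]
  norm_num
  constructor <;> linarith [h.1, h.2]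

theorem Vv_zero : Vv 0 = 0 := by
  simp [Vv]

theorem total : Vv (57 / 1000) + (Vv 1 - Vv (6549 / 10000)) ≤ cI := by
  have h0 := log_y0
  have h1 := log_b
  have h2 := log_c
  have h3 := log_d
  have h4 := Real.log_two_gt_d9
  norm_num at h4
  unfold Vv cA cB cI
  rw [log_y1, Real.log_one]
  norm_num
  linarith [h0.1, h0.2, h1.1, h1.2, h2.1, h2.2, h3.1, h3.2]

/-- the one-body function is nonpositive in the middle -/
theorem vf_mid {y : ℝ} (h0 : 57 / 1000 ≤ y) (h1 : y ≤ 6549 / 10000) : vf y ≤ 0 := by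
  rcases le_total y (1 / 5) with h | h
  · exact (vf_anti (by norm_num) h0 h).trans vf_y0.2
  · rcases le_total y (21 / 100) with h' | h'
    · have hl : vf y ≤ vf (1 / 5) + (1 / (1 + 1 / 5) - 1 / (1 + 21 / 100)) := by
        unfold vf
        have h2 : Real.log (1 / 5) ≤ Real.log y := Real.log_le_log (by norm_num) h
        have h3 : 1 / (1 + 21 / 100) ≤ 1 / (1 + y) := by
          apply one_div_le_one_div_of_le <;> linarith
        have h4 : cB * Real.log (1 / 5) ≤ cB * Real.log y :=
          mul_le_mul_of_nonneg_left h2 (by unfold cB; norm_num)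
        linarith
      have h5 : vf (1 / 5) ≤ -(1 / 20) := by
        have h6 : vf (1 / 5) ≤ vf (1 / 8) := vf_anti (by norm_num) (by norm_num) le_rfl
        have h7 : Real.log (1 / 8) = -(3 * Real.log 2) := by
          rw [Real.log_div (by norm_num) (by norm_num), Real.log_one]
          have : (8 : ℝ) = 2 ^ 3 := by norm_num
          rw [this, Real.log_pow]
          norm_num
        have h8 : vf (1 / 8) ≤ -(1 / 20) := by
          have := Real.log_two_lt_d9
          norm_num at this
          unfold vf cA cB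
          rw [h7]
          norm_num
          linarith
        linarith
      norm_num at hl
      linarith
    · exact (vf_mono h' h1 (by norm_num)).trans vf_y1.2

/-- increments of the antiderivative, decreasing part -/
theorem incr_left {x h : ℝ} (h0 : 0 < h) (hx : h ≤ x) (hx1 : x ≤ 57 / 1000) :
    h * vf x ≤ Vv x - Vv (x - h) := by
  obtain ⟨c, hc, hc'⟩ := exists_hasDerivAt_eq_slope Vv (fun y => vf y + 16 / 1000000)
    (a := x - h) (b := x) (by linarith)
    (continuousOn_Vv.mono fun z hz => by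
      have := hz.1
      show (0 : ℝ) ≤ z
      linarith)
    (fun z hz => hasDerivAt_Vv (by linarith [hz.1]))
  have h1 : vf x ≤ vf c := vf_anti (by linarith [hc.1]) hc.2.le (by linarith)
  have h2 : x - (x - h) = h := by ring
  rw [h2, eq_div_iff h0.ne'] at hc'
  rw [← hc']
  nlinarith

/-- increments of the antiderivative, increasing part -/
theorem incr_right {x h : ℝ} (h0 : 0 < h) (hx : 6549 / 10000 ≤ x) (hx1 : x + h ≤ 1) :
    h * vf x ≤ Vv (x + h) - Vv x := by
  obtain ⟨c, hc, hc'⟩ := exists_hasDerivAt_eq_slope Vv (fun y => vf y + 16 / 1000000)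
    (a := x) (b := x + h) (by linarith)
    (continuousOn_Vv.mono fun z hz => by
      have := hz.1
      show (0 : ℝ) ≤ z
      linarith)
    (fun z hz => hasDerivAt_Vv (by linarith [hz.1]))
  have h1 : vf x ≤ vf c := vf_mono (by linarith) hc.1.le (by linarith [hc.2])
  have h2 : x + h - x = h := by ring
  rw [h2, eq_div_iff h0.ne'] at hc'
  rw [← hc']
  nlinarith

theorem Vv_mono_left : MonotoneOn Vv (Set.Icc 0 (57 / 1000)) := by
  refine monotoneOn_of_hasDerivWithinAt_nonneg (convex_Icc _ _)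
    (f' := fun y => vf y + 16 / 1000000)
    (continuousOn_Vv.mono fun z hz => hz.1) (fun z hz => ?_) (fun z hz => ?_)
  · rw [interior_Icc] at hz ⊢
    exact (hasDerivAt_Vv hz.1).hasDerivWithinAt
  · rw [interior_Icc] at hz
    have h1 : vf (57 / 1000) ≤ vf z := vf_anti hz.1 hz.2.le (by norm_num)
    linarith [vf_y0.1]

theorem Vv_mono_right : MonotoneOn Vv (Set.Icc (6549 / 10000) 1) := by
  refine monotoneOn_of_hasDerivWithinAt_nonneg (convex_Icc _ _)
    (f' := fun y => vf y + 16 / 1000000)
    (continuousOn_Vv.mono fun z hz => by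
      have := hz.1
      show (0 : ℝ) ≤ z
      linarith) (fun z hz => ?_) (fun z hz => ?_)
  · rw [interior_Icc] at hz ⊢
    exact (hasDerivAt_Vv (by linarith [hz.1])).hasDerivWithinAt
  · rw [interior_Icc] at hz
    have h1 : vf (6549 / 10000) ≤ vf z := vf_mono (by norm_num) hz.1.le hz.2.le
    linarith [vf_y1.1]

theorem vf_one : vf 1 ≤ 1 := by
  unfold vf cA cB
  norm_num

/-- left cut-off -/
noncomputable def W1 (y : ℝ) : ℝ := Vv (min y (57 / 1000))

/-- right cut-off -/
noncomputable def W2 (y : ℝ) : ℝ := Vv (max (min y 1) (6549 / 10000))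

theorem W1_mono {x y : ℝ} (hx : 0 ≤ x) (hxy : x ≤ y) : W1 x ≤ W1 y :=
  Vv_mono_left ⟨le_min hx (by norm_num), min_le_right _ _⟩
    ⟨le_min (hx.trans hxy) (by norm_num), min_le_right _ _⟩ (min_le_min_right _ hxy)

theorem W2_mono {x y : ℝ} (hxy : x ≤ y) : W2 x ≤ W2 y :=
  Vv_mono_right ⟨le_max_right _ _, max_le (min_le_right _ _) (by norm_num)⟩
    ⟨le_max_right _ _, max_le (min_le_right _ _) (by norm_num)⟩
    (max_le_max_right _ (min_le_min_right _ hxy))

/-- bound of one term -/
theorem term_le {b s : ℕ} (hb : 1 ≤ b) (hs : 1 ≤ s) (hsb : s ≤ b) :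
    vf ((s : ℝ) / b) ≤ b * (W1 ((s : ℝ) / b) - W1 (((s - 1 : ℕ) : ℝ) / b))
      + b * (W2 (((s + 1 : ℕ) : ℝ) / b) - W2 ((s : ℝ) / b)) + (if s = b then 1 else 0) := by
  have hb0 : (0 : ℝ) < b := by exact_mod_cast hb
  have hs1 : (1 : ℝ) ≤ s := by exact_mod_cast hs
  have hsb' : (s : ℝ) ≤ b := by exact_mod_cast hsb
  have hcast : ((s - 1 : ℕ) : ℝ) = s - 1 := by push_cast [hs]; ring
  have hA : 0 ≤ (b : ℝ) * (W1 ((s : ℝ) / b) - W1 (((s - 1 : ℕ) : ℝ) / b)) := by
    refine mul_nonneg hb0.le (sub_nonneg.mpr (W1_mono (by positivity) ?_))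
    rw [hcast]
    gcongr
    linarith
  have hB : 0 ≤ (b : ℝ) * (W2 (((s + 1 : ℕ) : ℝ) / b) - W2 ((s : ℝ) / b)) := by
    refine mul_nonneg hb0.le (sub_nonneg.mpr (W2_mono ?_))
    gcongr
    linarith
  have hC : (0 : ℝ) ≤ if s = b then 1 else 0 := by split_ifs <;> norm_num
  rcases le_total ((s : ℝ) / b) (57 / 1000) with h | h
  · have h1 := incr_left (x := (s : ℝ) / b) (h := 1 / b) (by positivity)
      (by gcongr) h
    have h2 : W1 ((s : ℝ) / b) = Vv ((s : ℝ) / b) := by rw [W1, min_eq_left h]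
    have h3 : W1 (((s - 1 : ℕ) : ℝ) / b) = Vv ((s : ℝ) / b - 1 / b) := by
      rw [W1, hcast, min_eq_left]
      · congr 1
        ring
      · refine le_trans ?_ h
        gcongr
        linarith
    have h4 : vf ((s : ℝ) / b) ≤ b * (W1 ((s : ℝ) / b) - W1 (((s - 1 : ℕ) : ℝ) / b)) := by
      rw [h2, h3]
      rw [one_div, inv_mul_le_iff₀ hb0] at h1
      rw [one_div]
      exact h1
    linarith
  · rcases le_total ((s : ℝ) / b) (6549 / 10000) with h' | h'
    · have := vf_mid h h'
      linarith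
    · by_cases hsb2 : s = b
      · subst hsb2
        rw [div_self hb0.ne'] at *
        have := vf_one
        simp only [if_true]
        linarith
      · have hlt : s + 1 ≤ b := by omega
        have hlt' : (s : ℝ) + 1 ≤ b := by exact_mod_cast hlt
        have h6 : (s : ℝ) / b + 1 / b ≤ 1 := by
          rw [← add_div, div_le_one hb0]
          exact hlt'
        have h1 := incr_right (x := (s : ℝ) / b) (h := 1 / b) (by positivity) h' h6
        have h7 : (s : ℝ) / b ≤ 1 := by
          rw [div_le_one hb0]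
          exact hsb'
        have h2 : W2 ((s : ℝ) / b) = Vv ((s : ℝ) / b) := by
          rw [W2, min_eq_left h7, max_eq_left h']
        have h3 : W2 (((s + 1 : ℕ) : ℝ) / b) = Vv ((s : ℝ) / b + 1 / b) := by
          have h8 : ((s + 1 : ℕ) : ℝ) / b = (s : ℝ) / b + 1 / b := by
            push_cast
            ring
          have h9 : (0 : ℝ) ≤ 1 / b := by positivity
          rw [W2, h8, min_eq_left h6, max_eq_left (by linarith)]
        have h4 : vf ((s : ℝ) / b) ≤ b * (W2 (((s + 1 : ℕ) : ℝ) / b) - W2 ((s : ℝ) / b)) := by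
          rw [h2, h3]
          rw [one_div, inv_mul_le_iff₀ hb0] at h1
          rw [one_div]
          exact h1
        linarith

theorem sum_le (b : ℕ) (hb : 1 ≤ b) (S : Finset ℕ) (hS : S ⊆ Icc 1 b) :
    ∑ s ∈ S, vf ((s : ℝ) / b) ≤ cI * b + 1 := by
  have hb0 : (0 : ℝ) < b := by exact_mod_cast hb
  set F : ℕ → ℝ := fun s => b * (W1 ((s : ℝ) / b) - W1 (((s - 1 : ℕ) : ℝ) / b))
      + b * (W2 (((s + 1 : ℕ) : ℝ) / b) - W2 ((s : ℝ) / b)) + (if s = b then 1 else 0) with hF
  have hF0 : ∀ s, 0 ≤ F s := by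
    intro s
    refine add_nonneg (add_nonneg (mul_nonneg hb0.le (sub_nonneg.mpr (W1_mono (by positivity) ?_)))
      (mul_nonneg hb0.le (sub_nonneg.mpr (W2_mono ?_)))) (by split_ifs <;> norm_num)
    · gcongr
      exact Nat.sub_le _ _
    · gcongr
      exact Nat.le_succ _
  have h1 : ∑ s ∈ S, vf ((s : ℝ) / b) ≤ ∑ s ∈ Icc 1 b, F s := by
    refine (Finset.sum_le_sum fun s hs => ?_).trans
      (Finset.sum_le_sum_of_subset_of_nonneg hS fun s _ _ => hF0 s)
    have := Finset.mem_Icc.mp (hS hs)
    exact term_le hb this.1 this.2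
  have h2 : ∑ s ∈ Icc 1 b, F s = ∑ i ∈ range b, F (i + 1) := by
    rw [Finset.range_eq_Ico, Finset.sum_Ico_add' F 0 b 1]
    rfl
  have h3 : ∑ i ∈ range b, F (i + 1) = b * (W1 ((b : ℝ) / b) - W1 (((0 : ℕ) : ℝ) / b))
      + b * (W2 (((b + 1 : ℕ) : ℝ) / b) - W2 (((0 + 1 : ℕ) : ℝ) / b)) + 1 := by
    have e1 := Finset.sum_range_sub (fun i : ℕ => W1 ((i : ℝ) / b)) b
    have e2 := Finset.sum_range_sub (fun i : ℕ => W2 (((i + 1 : ℕ) : ℝ) / b)) b
    have e3 : ∑ i ∈ range b, (if i + 1 = b then (1 : ℝ) else 0) = 1 := by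
      rw [Finset.sum_eq_single (b - 1)]
      · rw [if_pos (by omega)]
      · intro i _ hi
        rw [if_neg (by omega)]
      · intro h
        exact absurd (Finset.mem_range.mpr (by omega)) h
    rw [← e1, ← e2, Finset.mul_sum, Finset.mul_sum, ← Finset.sum_add_distrib]
    conv_rhs => rw [← e3]
    rw [← Finset.sum_add_distrib]
    refine Finset.sum_congr rfl fun i _ => ?_
    simp only [hF, Nat.add_sub_cancel]
  have h4 : W1 ((b : ℝ) / b) = Vv (57 / 1000) := by
    rw [div_self hb0.ne', W1, min_eq_right (by norm_num)]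
  have h5 : W1 (((0 : ℕ) : ℝ) / b) = 0 := by
    rw [Nat.cast_zero, zero_div, W1, min_eq_left (by norm_num), Vv_zero]
  have h6 : W2 (((b + 1 : ℕ) : ℝ) / b) = Vv 1 := by
    rw [W2, min_eq_right, max_eq_left (by norm_num)]
    rw [le_div_iff₀ hb0]
    push_cast
    linarith
  have h7 : Vv (6549 / 10000) ≤ W2 (((0 + 1 : ℕ) : ℝ) / b) :=
    Vv_mono_right ⟨le_rfl, by norm_num⟩ ⟨le_max_right _ _, max_le (min_le_right _ _) (by norm_num)⟩
      (le_max_right _ _)
  rw [h2, h3, h4, h5, h6] at h1
  have h8 := total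
  nlinarith

end OneBody

theorem one_body (b : ℕ) (hb : 1 ≤ b) (S : Finset ℕ) (hS : S ⊆ Icc 1 b) :
    cA * S.card - cB * ∑ s ∈ S, Real.log (s / b) - cI * b - 1
      ≤ ∑ s ∈ S, (b : ℝ) / (b + s) := by
  have hb0 : (0 : ℝ) < b := by exact_mod_cast hb
  have h1 := OneBody.sum_le b hb S hS
  have h2 : ∑ s ∈ S, OneBody.vf ((s : ℝ) / b)
      = cA * S.card - cB * ∑ s ∈ S, Real.log (s / b) - ∑ s ∈ S, (b : ℝ) / (b + s) := by
    rw [Finset.mul_sum, mul_comm cA, ← nsmul_eq_mul, ← Finset.sum_const, ← Finset.sum_sub_distrib,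
      ← Finset.sum_sub_distrib]
    refine Finset.sum_congr rfl fun s _ => ?_
    unfold OneBody.vf
    congr 1
    have : (0 : ℝ) ≤ s := Nat.cast_nonneg s
    field_simp
  linarith

end Pool.Agent.Helper43.LB

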